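import Pool.Agent.K7.H8.TH.Thm

/-!
# MP_557161_ag: the ranks of cycles and the poles if the Frobenius endomorphism is not semisimple

Let `X` be a smooth projective variety over the algebraic closure of a finite field. If the
Frobenius endomorphism is not semisimple on the cohomology of `X`, then the formula of Tate fails
badly for the powers of `X`: the rank of the group of the algebraic cycles modulo numerical
equivalence on `X ^ n` is at most `C * n ^ (-3 / 2)` times the order of the pole of the zeta
function, both for the sum over all codimensions and (for even powers) for the middle codimension.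
In other words: if for arbitrarily large constants `C` the rank of the cycles on some power `X ^ n` is
more than `C * n ^ (-3 / 2)` times the order of the pole, then the Frobenius endomorphism acts
semisimply on the cohomology of `X`.

The Riemann hypothesis (Deligne) is used to identify the orders of the poles. No standard
conjecture is used.
-/

set_option autoImplicit false

open CategoryTheory AlgebraicGeometry

universe u v

namespace Pool.Agent.Results.MP_557161_ag.NonSemisimpleFrobenius

open Pool.Agent.H914 Pool.Agent.H914.VarClass Pool.Agent.H914.VarClass.Obj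
  Pool.Agent.H914.WeilCohomology Pool.Agent.W534 Pool.Agent.Y133.Half

/-- Let `z n j` be the order of the pole at `j` of the zeta function of `X ^ (n + 1)`, and `w n` the
order of the pole at the central point of the zeta function of `X ^ (2 n + 2)`, over all sufficiently
large finite fields. Then the Frobenius endomorphism acts semisimply on the cohomology of `X`, or,
for all `n`, the ranks of the cycles modulo numerical equivalence are at most `C (n + 1) ^ (-3 / 2)`
times the orders of the poles. -/
theorem result {k : Type u} [Field k] {𝒱 : VarClass k} {ops : CycleOps 𝒱}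
    (W : WeilCohomology.{u, v} ops) [IsAlgClosed W.K] (σ : W.K →+* ℂ) (p : ℕ) (hp : p.Prime)
    (Φ : FrobSystem W p) (hRH : ∀ Z : 𝒱.Obj, RiemannHyp Φ σ Z) (X : 𝒱.Obj) :
    ∃ (z : ℕ → ℕ → ℕ) (w : ℕ → ℕ),
      (∀ n j, j ≤ (pw X n).dim → Y163.PoleOrderIs Φ σ (pw X n) j (z n j)) ∧
      (∀ n, Y163.PoleOrderIs Φ σ (Y163.sq X n) ((n + 1) * X.dim) (w n)) ∧
      (FrobSemisimple Φ X ∨ ∃ C : ℝ, ∀ n : ℕ,
        ((∑ j ∈ Finset.range ((pw X n).dim + 1), numRank ops (pw X n) j : ℕ) : ℝ) ≤
          C * (n + 1 : ℝ) ^ (-(3 / 2) : ℝ) *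
            (∑ j ∈ Finset.range ((pw X n).dim + 1), z n j : ℕ) ∧
        (numRank ops (Y163.sq X n) ((n + 1) * X.dim) : ℝ) ≤
          C * (n + 1 : ℝ) ^ (-(3 / 2) : ℝ) * w n) := by
  refine ⟨fun n j => Module.finrank W.K (Y163.genU Φ (pw X n) j),
    fun n => Module.finrank W.K (Y163.genU Φ (Y163.sq X n) ((n + 1) * X.dim)),
    fun n j hj => Y163.poleOrderIs hp.one_lt (hRH _) hj,
    fun n => Y163.poleOrderIs hp.one_lt (hRH _) (by rw [Y163.dim_sq]; omega), ?_⟩
  have hX := Y163.par_mem_of_RH Φ hp.one_lt σ (hRH X)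
  rcases Pool.Agent.K7.H8.TH.main_sums Φ X with h | ⟨c, C, -, hC, h⟩
  · exact Or.inl h
  rcases Pool.Agent.K7.H8.TH.main_central Φ X hX with h' | ⟨c', C', -, hC', h'⟩
  · exact Or.inl h'
  right
  refine ⟨C + C', fun n => ?_⟩
  have hn : (0 : ℝ) < (n + 1 : ℝ) := by positivity
  have e : (n + 1 : ℝ) ^ (-(3 / 2) : ℝ) = ((n + 1 : ℝ) * √(n + 1 : ℝ))⁻¹ := by
    rw [Real.rpow_neg hn.le, show (3 / 2 : ℝ) = 1 + 1 / 2 by norm_num, Real.rpow_add hn,
      Real.rpow_one, Real.sqrt_eq_rpow]
  have hpos : 0 < (n + 1 : ℝ) * √(n + 1 : ℝ) := mul_pos hn (Real.sqrt_pos.2 hn)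
  have key : ∀ {r z : ℝ}, 0 ≤ z → r * ((n + 1 : ℝ) * √(n + 1 : ℝ)) ≤ C * z ∨
      r * ((n + 1 : ℝ) * √(n + 1 : ℝ)) ≤ C' * z →
      r ≤ (C + C') * (n + 1 : ℝ) ^ (-(3 / 2) : ℝ) * z := by
    intro r z hz h
    have h1 : r * ((n + 1 : ℝ) * √(n + 1 : ℝ)) ≤ (C + C') * z := by
      rcases h with h | h
      · nlinarith
      · nlinarith
    rw [e, ← div_eq_mul_inv, div_mul_eq_mul_div, le_div_iff₀ hpos]
    exact h1
  refine ⟨key (Nat.cast_nonneg _) (Or.inl ?_), key (Nat.cast_nonneg _) (Or.inr (h' n).1)⟩
  push_cast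
  exact h n

end Pool.Agent.Results.MP_557161_ag.NonSemisimpleFrobenius
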