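import Pool.Agent.K7.H8.AV.Num4

/-!
# Orders of poles and ranks of cycles modulo numerical equivalence on the powers of abelian varieties

Let `A` be an abelian variety of dimension `g` over the field with `q` elements.  We describe `A` by
its first cohomology (`AVData`): a vector space `V` over a field `Ω` of characteristic zero (for
instance an algebraic closure of `ℚ_ℓ`) with the Frobenius `F`, which is semisimple with the
eigenvalues `α i`, `q / α i` (`i < g`), and with the ring `R` of endomorphisms of `A` (with Tate's
theorem, `TateEnd`).  The cohomology of `A ^ n` is the exterior algebra of `V ^ n` (`Coh`), and an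
`AlgSystem` is a family of spaces of classes on all `A ^ n` with formal properties of the spans of
the classes of algebraic cycles over the algebraic closure (see `GrowthExponents`, MP_0f183b_ag).

`poleOrder D.F q n m j` is the dimension of the space of the classes of degree `2 j` on `A ^ n` on
which the Frobenius of the field with `q ^ m` elements is the multiplication by `q ^ (m j)`, that is,
the order of the pole of the zeta function of `A ^ n` over this field at `s = j`;
`numRank S n m j` is the rank of the intersection pairing between the algebraic classes over this
field of the codimensions `j` and `g n - j`, that is, the rank of the group of cycles of codimension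
`j` modulo numerical equivalence, and `numRankBar S n j` is the same over the algebraic closure.
Tate's conjecture says that `numRank S n m j = poleOrder D.F q n m j`.
-/

set_option autoImplicit false

namespace Pool.Agent.Results.MP_557161_ag.PolesOfPowers

open Pool.Agent.K7.H8.AV

/-- On the powers `A ^ n` of an abelian variety `A`, over every finite extension of the base field, the
sum over `j` of the orders of the poles of the zeta function is of the exact order
`4 ^ (g n) / n ^ (θ / 2)` and the sum of the ranks of the groups of cycles modulo numerical
equivalence is of the exact order `4 ^ (g n) / n ^ (e / 2)`, where `θ ≤ e ≤ κ` are integers which do not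
depend on the extension; and `e = κ` iff all algebraic cycles on all powers are numerically equivalent
to combinations of products of divisors. -/
theorem result {Ω V : Type*} [Field Ω] [CharZero Ω] [AddCommGroup V] [Module Ω V] {g q : ℕ}
    (D : AVData Ω V g q) :
    (∀ m : ℕ, 0 < m → Growth g (theta D)
      (fun n => ∑ j ∈ Finset.range (g * n + 1), poleOrder D.F q n m j)) ∧
    ∀ S : AlgSystem D, ∃ e : ℕ, theta D ≤ e ∧ e ≤ kappa D ∧
      (∀ m : ℕ, 0 < m → Growth g e
        (fun n => ∑ j ∈ Finset.range (g * n + 1), numRank S n m j)) ∧
      (e = kappa D ↔
        ∀ n, ∑ j ∈ Finset.range (g * n + 1), numRankBar S n j = dim (lefschetz D.F q n)) :=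
  ⟨fun _ hm => growth_pole D hm, fun S => ⟨expoNum S, theta_le_expoNum S, expoNum_le_kappa S,
    fun m _ => growth_numRank S m, num_lef_iff S⟩⟩

end Pool.Agent.Results.MP_557161_ag.PolesOfPowers
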