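import Pool.Agent.K7.H9.TP.Pole

/-!
# Tate's formula for the poles of the zeta functions of products of abelian varieties of dimension at
most three

An abelian variety over the field with `p ^ a` elements is modelled by `RedAV` (Honda, Tate: over an
algebraic closure each abelian variety is isogenous to a finite product of reductions of abelian
varieties of CM type): CM types `(E i, Φ i)` with Weil numbers `π i ∈ E i` that satisfy the formula of
Shimura and Taniyama. Its cohomology of degree `2 n` with complex coefficients (`Coh ℂ Y n`) consists of
the alternating forms on `ℂ ⊗ H_1`, on which Frobenius acts by `π`; its zeta function over the extension
of degree `s` is the alternating product of the characteristic polynomials.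

Let `C Y s n` be the space of the rational linear combinations of classes of algebraic cycles of
codimension `n` on `Y` over the extension of degree `s`, and let `𝒜` be the system of all linear
combinations of classes of algebraic cycles, with complex coefficients (it is stable, `IsStable`: it contains the Tate
classes of degree two, by the theorem of Tate, and is stable under cup products, pull-backs and
push-forwards along projections). The structure `IsCycleTheory` lists what is used: classes of cycles
are Tate classes; a Tate class over the extension of degree `s` that is in `𝒜` is a combination of
elements of `C Y s n` (by averaging), and conversely; intersection numbers are rational. Let
`numRank (C Y s) n` be the rank of the group of cycles modulo numerical equivalence and let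
`PoleAt s (C Y s) n` be Tate's formula

  `ord_{z = n} ζ (Y / 𝔽_Q, z) = - numRank (C Y s) n`, `Q = p ^ (a s)`.

**Theorem 1.** The following are equivalent, for every characteristic `p`.

1. (`AllPole`) Tate's formula holds for all products `Y` of any number of abelian varieties of dimension at most
   three, over all finite fields, at all integers `n`.
2. (`FourPole`) Tate's formula holds at the integer `2` (that is: for cycles of codimension two) for all products of
   **at most four** abelian varieties of dimension at most three.
3. (`AllFormula`) For all these products, all finite fields and all `n` Tate's formula holds and
   numerically trivial cycles are homologically trivial.
4. (`AllTate`) The Tate conjecture holds for all these products, in all degrees and over all finite fields.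
5. (`FourHodge`) The reductions of the Hodge classes of degree four on products of at most four abelian varieties of
   CM type of dimension at most three are linear combinations of classes of algebraic cycles.

No hypothesis on Newton polygons, CM fields or their Galois groups is made. So all the formulas follow
from the formulas at one single integer, for abelian varieties of dimension at most twelve.

**Theorem 2.** Tate's formula, together with the agreement of numerical and homological equivalence,
is true, at all integers and over all finite fields, for the abelian varieties `Y` of the following kinds
(`IsGoodAVP`): all abelian varieties of dimension at most five; all abelian varieties that are isogenous
over an algebraic closure to a product of a supersingular abelian variety and of abelian varieties of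
dimension at most three (any number, any multiplicity), such that any two factors of dimension three
whose CM fields have the same Galois closure satisfy one of the following: their fields are Galois over
`ℚ`; one of them is supersingular; they are isogenous; neither of them is ordinary and their `p`-ranks
are not `{1, 2}`. Here it is used (`HasKnownClasses`) that the reductions of split Weil classes on
abelian fourfolds and sixfolds, and the reductions of Hodge classes of degree four on products of
elliptic curves and abelian surfaces, are algebraic (theorems of Markman and Ramón Marí).

Idea of the proof of Theorem 1. The order of the pole is the dimension of the space of Tate classes;
classes of cycles that are linearly independent over `ℚ` modulo numerical equivalence are linearly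
independent over `ℂ`; so the formula at `2` implies that the Tate classes of degree four are
algebraic. By the theorem of the starting library (`Pool/Agent/R937/TZ`) this implies the Tate
conjecture for all products of abelian varieties of dimension at most three. Then numerical and
homological equivalence agree, by the duality between Tate classes of complementary degrees, and the
formula follows.
-/

set_option autoImplicit false

namespace Pool.Agent.Results.MP_557161_ag.ProductsOfThreefolds

open Pool.Agent.W495.TA Pool.Agent.W547.DR Pool.Agent.K7.H9.TP
open Pool.Agent.R937.PG (IsGoodAVP)

/-- **Tate's pole formula for all products of abelian varieties of dimension at most three** is
equivalent to the formula at the integer two for products of at most four; it is true for all abelian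
varieties of dimension at most five and for products with small factors (`IsGoodAVP`). -/
theorem result (p : ℕ) [Fact p.Prime] (ν : PadicAlgCl p ≃+* ℂ) (𝒜 : Classes p ν ℂ)
    (C : ∀ Y : RedAV p ν, ℕ → Sys ℂ Y) (hC : IsCycleTheory 𝒜 C) :
    List.TFAE [AllPole C, FourPole C, AllFormula C, AllTate 𝒜, FourHodge 𝒜] ∧
    (HasKnownClasses 𝒜 → ∀ Y : RedAV p ν, IsGoodAVP Y → ∀ s : ℕ, 0 < s → ∀ n : ℕ,
      Formula s (C Y s) n) :=
  ⟨tfae_pole hC, fun hk Y hY s hs n => goodPoleP hC hk Y hY s hs n⟩

end Pool.Agent.Results.MP_557161_ag.ProductsOfThreefolds
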