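import Pool.Agent.K7.H1.UM.Final3

/-!
# MP_557161_ag: the pole formula for the products of almost all members of families with unitary
monodromy

Let `Y` be a smooth proper variety over an algebraic closure of a finite field such that Tate's
formula for the orders of the poles of the zeta function holds for all products of copies of `Y`
(in the geometric form: over all sufficiently large finite fields), for example a point or a
projective space. Let `G u`, for `u` in a finite set, be families of varieties `X_s` over `Y` whose
cohomology is the sum of the pull-back of the cohomology of `Y` and of a subspace `P_s` of degree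
`dim X_s`, on which a CM field `E u` acts, with **full unitary monodromy**: the Frobenius matrices on
the eigenspaces of `E u` are equidistributed, modulo the large primes which split, in the matrices
of rank `r` and determinant `δ u m`; for example cyclic coverings of the projective line or of
projective spaces of degree `d` (with `E = ℚ(ζ_d)`), where the discriminant of the branch divisor
is in a fixed class modulo powers. Let `F i` be families with large symplectic or orthogonal
monodromy and without forced eigenvalues (hypersurface sections).

Suppose that the determinants are independent (`NonDeg`): a product of powers with odd exponents of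
conjugates of the `δ u m`, times a product of conjugates of Frobenius eigenvalues of `Y`, is a
positive rational number only if the exponents are zero.

Then for all `ε > 0` and all large `m`, for all but at most `ε * ∏ j, #S_j(m)` of the tuples `s` in
the product of the sets of the parameters with coordinates in the field with `p ^ m` elements,
Tate's formula holds for **all products** of copies of `Y` and of the members of the families, at
all integers.
-/

open CategoryTheory AlgebraicGeometry Polynomial NumberField

universe u v

namespace Pool.Agent.Results.MP_557161_ag.UnitaryFamilies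

open Pool.Agent.H914 Pool.Agent.W534 Pool.Agent.W458.MF VarClass Obj WeilCohomology
  Pool.Agent.K7.H1.UM

/-- **The pole formula for all products of almost all members of families of varieties with unitary
(and symplectic or orthogonal) monodromy.** -/
theorem result {k : Type u} [Field k] {𝒱 : VarClass k} {ops : CycleOps 𝒱}
    (W : WeilCohomology.{u, v} ops) [IsAlgClosed W.K] (σ : W.K →+* ℂ) (p : ℕ)
    (hp : p.Prime) (Φ : FrobSystem W p) (hRH : ∀ Z, RiemannHyp Φ σ Z) (Y : 𝒱.Obj)
    (hint : ∀ μ : W.K, Module.End.HasEigenvalue (W.map (Φ.Fr Y)).toLinearMap μ → IsIntegral ℤ μ)
    (hY : ∀ Z, IsProductOf {Y} Z → ∀ j ≤ Z.dim, PoleFormula Φ σ Z j)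
    {I U : Type} [Fintype I] [Fintype U] (F : I → Family W Y)
    (hF : ∀ i, Pol.HasLargeMonodromy (F i) Φ 0) (G : U → Family W Y) (E : U → Type)
    [∀ u, Field (E u)] [∀ u, NumberField (E u)] [∀ u, IsCMField (E u)] (δ : ∀ u, ℕ → 𝓞 (E u))
    (hG : ∀ u, HasUnitary (G u) Φ (E u) (δ u))
    (hN : ∀ m, 0 < m → NonDeg E (fun u => (δ u m : E u)) (eigConj Φ Y)) (ε : ℝ) (hε : 0 < ε) :
    ∃ m₀ : ℕ, ∀ m ≥ m₀,
      ((exceptions (Sum.elim F G) m fun Z => ∀ j ≤ Z.dim, PoleFormula Φ σ Z j).ncard : ℝ) ≤
        ε * ∏ j, (Nat.card ((Sum.elim F G j).S m) : ℝ) :=
  unitary_pole W σ p hp Φ hRH Y hint hY F hF G E δ hG hN ε hε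

end Pool.Agent.Results.MP_557161_ag.UnitaryFamilies
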